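import Pool.Agent.Q37.TW.Main

/-!
# MP_5c8d7a_al, Q1: an admissible weighted tree whose sixth power is not Cohen–Macaulay

The tree is the path `x_1 x_2 x_3 x_4` with a leaf `y_i` attached to every `x_i`; the weights are
`ω_12 = 4`, `ω_23 = 2`, `ω_34 = 3` and `(m_1, m_2, m_3, m_4) = (8, 8, 6, 6)`
(`Q37.TW.GG`, `Q37.TW.ww`). It is admissible, and for every field `K` the ideal
`(x_2, x_3, x_4, y_1, y_4)` is an embedded prime of `I(G_ω) ^ 6`.
-/

set_option autoImplicit false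

namespace Pool.Agent.Results.MP_5c8d7a_al.AdmissibleNotCM

open Q37.TW

universe u

theorem result : ∃ (G : SimpleGraph (Fin 8)) (ω : Sym2 (Fin 8) → ℕ), Admissible G ω ∧
    ∀ (K : Type u) [Field K],
      ¬ IsCohenMacaulayRing (MvPolynomial (Fin 8) K ⧸ weightedEdgeIdeal K G ω ^ 6) :=
  ⟨GG, ww, adm, fun K _ => not_CM K⟩

end Pool.Agent.Results.MP_5c8d7a_al.AdmissibleNotCM
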